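import Pool.Agent.PFC.StmtsB6

set_option autoImplicit false

open scoped BigOperators

noncomputable section

namespace Pool.Agent.PFC.H12

open Pool.Agent.Helper51_AWC Pool.Agent.Helper79_WRA Pool.Agent.PP Pool.Agent.PP.KF
open Pool.Agent.PP.K9 Pool.Agent.PP.K9.H97 Pool.Agent.PP.H75 Pool.Agent.PP.T3 Pool.Agent.PP.T2
open Pool.Agent.PP.T8 (Fr rs pw)

attribute [local instance] Ideal.Quotient.field

/-- the action of a subgroup of the normaliser -/
def sact {G : Type} [Group G] (V T : Subgroup G) (h : T ≤ Subgroup.normalizer (V : Set G)) :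
    T →* MulAut V := V.normalizerMonoidHom.comp (Subgroup.inclusion h)

theorem sact_apply {G : Type} [Group G] (V T : Subgroup G)
    (h : T ≤ Subgroup.normalizer (V : Set G)) (t : T) (v : V) :
    ((sact V T h t v : V) : G) = (t : G) * v * (t : G)⁻¹ := rfl

theorem sact_eq_one {G : Type} [Group G] (V T : Subgroup G)
    (h : T ≤ Subgroup.normalizer (V : Set G)) (t : T) :
    sact V T h t = 1 ↔ (t : G) ∈ Subgroup.centralizer (V : Set G) := by
  rw [Subgroup.mem_centralizer_iff]
  constructor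
  · intro h1 v hv
    have h2 : ((sact V T h t ⟨v, hv⟩ : V) : G) = v := by rw [h1]; rfl
    rw [sact_apply] at h2
    have h3 := mul_inv_eq_iff_eq_mul.1 h2
    exact h3.symm
  · intro h1
    ext v
    rw [sact_apply, ← h1 v v.2]
    simp

theorem egr (inx : K9.InxStmt) : EgrStmt := by
  classical
  intro ℓ _ M _ hM G _ _ e V γ hL hV hFr hCy
  have hT : Tg V γ ≤ Subgroup.normalizer (V : Set G) := inf_le_left
  letI cg : CommGroup V :=
    { (inferInstance : Group V) with
      mul_comm := fun a b => Subtype.ext (hL.ab a a.2 b b.2) }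
  letI : Fintype V := Fintype.ofFinite V
  let s : Tg V γ →* MulAut V := sact V (Tg V γ) hT
  haveI : Finite (MulAut V) := Finite.of_injective (fun f : MulAut V => (f : V → V))
    (fun f g h => MulEquiv.ext (congrFun h))
  letI : Fintype s.range := Fintype.ofFinite _
  obtain ⟨t0, ht0, hgen⟩ := hCy
  have hker : s.ker = (Subgroup.centralizer (V : Set G)).subgroupOf (Tg V γ) := by
    ext t
    rw [MonoidHom.mem_ker, sact_eq_one, Subgroup.mem_subgroupOf]
  have hcard : Nat.card s.range = ix V γ := by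
    rw [← Subgroup.index_ker, hker]
    rfl
  refine ⟨V, s.range, cg, inferInstance, inferInstance, inferInstance, V.subtype,
    s.range.subtype, ⟨s ⟨t0, ht0⟩, ⟨⟨t0, ht0⟩, rfl⟩⟩, V.subtype_injective, V.range_subtype,
    ?_, hcard, ?_, ?_⟩
  · refine ⟨⟨Fact.out, hL.tp.pg, ?_, ?_, ?_⟩, ?_⟩
    · obtain ⟨u, hu⟩ := (Subgroup.ne_bot_iff_exists_ne_one).1 hV
      exact ⟨u, hu⟩
    · rw [hcard]
      exact inx ℓ M hM G e hL.blk V hL.tp hL.ab γ hL.gam.supp hL.gam.blk hL.und
    · rintro ⟨_, t, rfl⟩ u hu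
      by_cases hu1 : u = 1
      · exact Or.inr hu1
      left
      apply Subtype.ext
      change s t = 1
      rw [sact_eq_one]
      apply hFr t t.2 u u.2
      · intro h
        exact hu1 (Subtype.ext h)
      · have h2 : ((s t u : V) : G) = u := congrArg (fun x : V => (x : G)) hu
        rw [sact_apply] at h2
        exact mul_inv_eq_iff_eq_mul.1 h2
    · rintro ⟨_, t, rfl⟩
      obtain ⟨k, hk⟩ := hgen t t.2
      rw [Subgroup.mem_zpowers_iff]
      refine ⟨k, ?_⟩
      apply Subtype.ext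
      change (s ⟨t0, ht0⟩) ^ (k : ℤ) = s t
      rw [zpow_natCast, ← map_pow, ← mul_inv_eq_one, ← map_inv, ← map_mul, sact_eq_one]
      exact hk
  · intro t ht
    exact ⟨⟨s ⟨t, ht⟩, ⟨⟨t, ht⟩, rfl⟩⟩, fun w => rfl⟩
  · rintro ⟨_, t, rfl⟩
    exact ⟨t, t.2, fun w => rfl⟩

end Pool.Agent.PFC.H12
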