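import Pool.Agent.PFC.StmtsB6
import Pool.Agent.Helper87_AT8.KNZ

set_option autoImplicit false

open scoped BigOperators

noncomputable section

namespace Pool.Agent.PFC.H12

open Pool.Agent.Helper51_AWC Pool.Agent.Helper79_WRA Pool.Agent.PP Pool.Agent.PP.KF
open Pool.Agent.PP.K9 Pool.Agent.PP.K9.H97 Pool.Agent.PP.H75 Pool.Agent.PP.T3 Pool.Agent.PP.T2
open Pool.Agent.PP.T8 (Fr rs pw)

attribute [local instance] Ideal.Quotient.field

theorem lmb_cen (rg1 : T8.Rg1Stmt) (cens : T3.CenStmt) (psg : T3.PsgStmt) (ℓ : ℕ)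
    [hℓ : Fact ℓ.Prime] (M : Ideal (integralClosure ℤ ℂ)) [M.IsMaximal]
    (hM : (ℓ : integralClosure ℤ ℂ) ∈ M) (H : Type) [Group H] [Finite H] (b : H → FF M)
    (hb : IsBlk b) (V : Subgroup H) (hV : Tp ℓ b V) (hVc : V ≤ Subgroup.center H) :
    ∃ q : FF M, q ≠ 0 ∧ ∀ κ ∈ IrrE M b, ∀ a : H → FF M, mulF a b = a →
      ∑ᶠ v : V, a v = q * ∑ᶠ t : H, a t * rr M (κ t) := by
  classical
  obtain ⟨⟨c, hc⟩, hcard⟩ := cens ℓ M hM H b hb V hV hVc
  have hF : GoodF ℓ (FF M) := H50.fld ℓ hℓ.out M hM
  have hFH : Fintype H := Fintype.ofFinite H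
  have hFV : Fintype V := Fintype.ofFinite V
  have wbo : WboStmt := H82W.wbo (H82.trb H53.tra)
  have hq : ((Nat.card V * c : ℂ) / Nat.card H) ∈ RM M :=
    (T8.H87.knz_cen rg1 cens psg ℓ M hM H b hb V hV hVc c hc).1
  have hn : V.Normal := ⟨fun n hn g => by
    have h1 := Subgroup.mem_center_iff.1 (hVc hn) g
    rw [h1, mul_assoc, mul_inv_cancel, mul_one]
    exact hn⟩
  -- the values at the regular elements
  have htop : Subgroup.centralizer (V : Set H) = ⊤ := by
    rw [eq_top_iff]
    intro g _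
    rw [Subgroup.mem_centralizer_iff]
    intro v hv
    exact (Subgroup.mem_center_iff.1 (hVc hv) g).symm
  have hbrb : br V b = b := funext fun x => H66.br_of_mem (by
    rw [htop]
    exact Subgroup.mem_top x)
  have hL : Ld ℓ b V b := by
    refine ⟨hb, hV, ?_, ⟨?_, ?_⟩, ?_⟩
    · intro a ha b hb
      exact (Subgroup.mem_center_iff.1 (hVc ha) b).symm
    · intro x hx
      rw [htop] at hx
      exact absurd (Subgroup.mem_top x) hx
    · have h1 : ∀ C : Subgroup H, C = ⊤ → IsBlk (fun t : C => b t) := by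
        rintro _ rfl
        exact H9.blk_tr Subgroup.topEquiv hb
      exact h1 _ htop
    · rw [hbrb]
      exact hb.1.2
  have hix : ix V b = 1 := by
    unfold ix
    rw [htop]
    exact Subgroup.relIndex_top_left _
  have hreg : ∀ κ ∈ IrrE M b, ∀ κ' ∈ IrrE M b, ∀ s : H, Reg ℓ s → κ s = κ' s :=
    rg1 ℓ M hM H b V b hL hix
  obtain ⟨hid1, -, -⟩ := H25.idm M H b hb.1
  have sing : ∀ s : H, ¬ Reg ℓ s → b s = 0 := by
    intro s h
    rw [← (hid1 s).2, H25.eh_sing wbo ℓ M hM b hb.1 s h, rr_zero]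
  have regi : ∀ s : H, Reg ℓ s → Reg ℓ s⁻¹ := by
    intro s hs
    unfold Reg
    rw [orderOf_inv]
    exact hs
  have val : ∀ κ ∈ IrrE M b, ∀ s : H, Reg ℓ s →
      b s = rr M ((Nat.card V * c : ℂ) / Nat.card H) * rr M (κ s⁻¹) := by
    intro κ hκ s hs
    have h1 : eh M b s = ((Nat.card V * c : ℂ) / Nat.card H) * κ s⁻¹ := by
      rw [K9.H25.eh_eq]
      have h2 : ∀ χ ∈ (K9.H25.irrE_finite M b).toFinset, χ 1 * χ s⁻¹ = (c : ℂ) * κ s⁻¹ := by
        intro χ hχ
        rw [Set.Finite.mem_toFinset] at hχ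
        rw [hc.2 χ hχ, hreg χ hχ κ hκ _ (regi s hs)]
      rw [Finset.sum_congr rfl h2, Finset.sum_const, ← Set.ncard_eq_toFinset_card _
        (K9.H25.irrE_finite M b), hcard, nsmul_eq_mul, ← Nat.card_eq_fintype_card]
      ring
    rw [← (hid1 s).2, h1, rr_mul hq (RM_of_int (irr_integral hκ.1 _))]
  obtain ⟨N, hN0, hN1⟩ := H27.prt ℓ H
  have notreg : ∀ s u : H, Commute s u → Reg ℓ s → (∃ m : ℕ, u ^ ℓ ^ m = 1) → u ≠ 1 →
      ¬ Reg ℓ (s * u) := by
    intro s u hsu hs hu hu1 h
    have h1 := hN1 s u hsu hs hu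
    have h2 := hN1 (s * u) 1 (Commute.one_right _) h ⟨0, by simp⟩
    rw [mul_one] at h2
    rw [h1] at h2
    exact hu1 (by simpa using h2.symm)
  refine ⟨rr M ((Nat.card V * c : ℂ) / Nat.card H), ?_, ?_⟩
  · intro h0
    have hne : (IrrE M b).Nonempty := by
      apply Set.nonempty_of_ncard_ne_zero
      rw [hcard]
      exact Nat.card_pos.ne'
    obtain ⟨κ, hκ⟩ := hne
    obtain ⟨s, hs⟩ := Function.ne_iff.1 hb.2.1
    have hsr : Reg ℓ s := by
      by_contra h
      exact hs (sing s h)
    apply hs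
    rw [val κ hκ s hsr, h0, zero_mul]
    rfl
  · intro κ hκ a ha
    have key : ∀ t : H, ∑ v : V, b (t⁻¹ * v) =
        rr M ((Nat.card V * c : ℂ) / Nat.card H) * rr M (κ t) := by
      intro t
      obtain ⟨hs, n, hn'⟩ := hN0 t
      obtain ⟨s, hsd⟩ : ∃ s, s = t ^ N := ⟨_, rfl⟩
      obtain ⟨y, hyd⟩ : ∃ y, y = s⁻¹ * t := ⟨_, rfl⟩
      rw [← hsd] at hs hn'
      have hst : Commute s t := by rw [hsd]; exact (Commute.refl t).pow_left N
      have hsy : Commute s y := by
        rw [hyd]
        exact ((Commute.refl s).inv_right).mul_right hst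
      have hty : t = s * y := by rw [hyd]; group
      have hy : y ^ ℓ ^ n = 1 := by rw [hyd]; exact hn'
      have h1 : t ^ ℓ ^ n = s ^ ℓ ^ n := by
        rw [hty, hsy.mul_pow, hy, mul_one]
      have h2 : rr M (κ t) = rr M (κ s) := T8.H87.rr_reg M hM hκ.1 t s n h1
      have h3 : b s⁻¹ = rr M ((Nat.card V * c : ℂ) / Nat.card H) * rr M (κ t) := by
        rw [val κ hκ s⁻¹ (regi s hs), inv_inv, h2]
      have hcomV : ∀ v ∈ V, ∀ g : H, Commute v g := fun v hv g =>
        (Subgroup.mem_center_iff.1 (hVc hv) g).symm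
      have hlV : ∀ v ∈ V, ∃ m : ℕ, v ^ ℓ ^ m = 1 := by
        intro v hv
        obtain ⟨m, hm⟩ := hV.pg ⟨v, hv⟩
        exact ⟨m, by simpa using congrArg Subtype.val hm⟩
      have hzero : ∀ v ∈ V, v ≠ y → b (t⁻¹ * v) = 0 := by
        intro v hv hvy
        have e : t⁻¹ * v = s⁻¹ * (y⁻¹ * v) := by
          rw [hty, hsy.eq]; group
        rw [e]
        apply sing
        apply notreg
        · exact (hsy.inv_inv).mul_right ((hcomV v hv s⁻¹).symm)
        · exact regi s hs
        · obtain ⟨m, hm⟩ := hlV v hv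
          refine ⟨n + m, ?_⟩
          have hc1 : Commute y⁻¹ v := (hcomV v hv y⁻¹).symm
          rw [hc1.mul_pow, pow_add, pow_mul, inv_pow, hy, inv_one, one_pow, one_mul,
            mul_comm (ℓ ^ n), pow_mul, hm, one_pow]
        · intro h
          exact hvy (inv_mul_eq_one.1 h).symm
      rw [← h3]
      by_cases hyV : y ∈ V
      · rw [Finset.sum_eq_single (⟨y, hyV⟩ : V)]
        · congr 1
          change t⁻¹ * y = s⁻¹
          rw [hty, hsy.eq]; group
        · intro v _ hv
          apply hzero v v.2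
          intro h
          exact hv (Subtype.ext h)
        · intro h
          exact absurd (Finset.mem_univ _) h
      · have h4 : b s⁻¹ = 0 := by
          by_contra hne
          apply hyV
          have hz : IsPGroup ℓ (Subgroup.zpowers y) := by
            rintro ⟨z, hz⟩
            obtain ⟨k, rfl⟩ := Subgroup.mem_zpowers_iff.1 hz
            refine ⟨n, ?_⟩
            apply Subtype.ext
            simp only [Subgroup.coe_pow, Subgroup.coe_one]
            rw [← zpow_natCast, ← zpow_mul, mul_comm, zpow_mul, zpow_natCast, hy, one_zpow]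
          have hQ : IsPGroup ℓ (Subgroup.zpowers y ⊔ V : Subgroup H) :=
            IsPGroup.to_sup_of_normal_right hz hV.pg
          have hle : (Subgroup.zpowers y ⊔ V : Subgroup H) ≤ Subgroup.centralizer {s⁻¹} := by
            apply sup_le
            · rw [Subgroup.zpowers_le, Subgroup.mem_centralizer_iff]
              intro x hx
              rw [Set.mem_singleton_iff.1 hx]
              exact (hsy.inv_left).eq
            · intro v hv
              rw [Subgroup.mem_centralizer_iff]
              intro x hx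
              exact ((hcomV v hv x).symm).eq
          have hgd : Gd b (Subgroup.zpowers y ⊔ V : Subgroup H) := by
            refine ⟨s⁻¹, ?_, hne⟩
            rw [Subgroup.mem_centralizer_iff]
            intro x hx
            exact (Subgroup.mem_centralizer_iff.1 (hle hx) s⁻¹ rfl).symm
          have hmx := hV.mx _ hQ hgd
          have heq : V = Subgroup.zpowers y ⊔ V :=
            Subgroup.eq_of_le_of_card_ge le_sup_right hmx
          rw [heq]
          exact (le_sup_left : Subgroup.zpowers y ≤ _) (Subgroup.mem_zpowers y)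
        rw [h4]
        apply Finset.sum_eq_zero
        intro v _
        apply hzero v v.2
        intro h
        exact hyV (h ▸ v.2)
    rw [finsum_eq_sum_of_fintype, finsum_eq_sum_of_fintype]
    have h5 : ∀ v : V, a v = ∑ t : H, a t * b (t⁻¹ * v) := by
      intro v
      have := congrFun ha (v : H)
      rw [← this]
      change ∑ᶠ t, a t * b (t⁻¹ * v) = _
      rw [finsum_eq_sum_of_fintype]
    rw [Finset.sum_congr rfl fun v _ => h5 v, Finset.sum_comm, Finset.mul_sum]
    refine Finset.sum_congr rfl fun t _ => ?_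
    rw [← Finset.mul_sum, key t]
    ring

/-- LMB -/
theorem lmb (rg1 : T8.Rg1Stmt) (cens : T3.CenStmt) (psg : T3.PsgStmt) : LmbStmt := by
  intro ℓ hℓ M _ hM G _ _ e V γ hL
  have hF : GoodF ℓ (FF M) := H50.fld ℓ Fact.out M hM
  obtain ⟨C, hC⟩ : ∃ C : Subgroup G, C = Subgroup.centralizer (V : Set G) := ⟨_, rfl⟩
  have hVC : V ≤ C := by
    intro v hv
    rw [hC, Subgroup.mem_centralizer_iff]
    intro w hw
    exact hL.ab w hw v hv
  have hbx : Bx C γ := by rw [hC]; exact hL.gam
  have hVz : V.subgroupOf C ≤ Subgroup.center C := by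
    intro v hv
    rw [Subgroup.mem_center_iff]
    intro g
    have h1 : (g : G) ∈ Subgroup.centralizer (V : Set G) := by rw [← hC]; exact g.2
    exact Subtype.ext (Subgroup.mem_centralizer_iff.1 h1 v hv).symm
  have hVcard : Nat.card (V.subgroupOf C) = Nat.card V :=
    Nat.card_congr (Subgroup.subgroupOfEquivOfLe hVC).toEquiv
  have hbrcl : IsCl (fun t : C => br V e t) := by
    intro x y
    have h1 : ∀ t : C, br V e t = e t := fun t =>
      H66.br_of_mem (by rw [← hC]; exact t.2)
    have h2 := h1 (y * x * y⁻¹)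
    have h3 := h1 x
    change br V e ((y * x * y⁻¹ : C) : G) = br V e (x : G)
    rw [h2, h3]
    exact hL.blk.1.1 _ _
  have hmul : mulF (fun t : C => br V e t) (fun t : C => γ t) = fun t : C => γ t := by
    have hs : ∀ x, x ∉ C → br V e x = 0 := fun x hx => H66.br_of_not_mem (by rw [← hC]; exact hx)
    rw [← mulF_res C γ hs, hL.und]
  have hT : Tp ℓ (fun t : C => γ t) (V.subgroupOf C) := by
    refine ⟨hL.tp.pg.of_equiv (Subgroup.subgroupOfEquivOfLe hVC).symm, ?_, ?_⟩
    · have hne : (fun t : C => γ t) ≠ 0 := hbx.blk.2.1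
      obtain ⟨t, ht⟩ := Function.ne_iff.1 hne
      refine ⟨t, ?_, ht⟩
      rw [Subgroup.mem_centralizer_iff]
      intro v hv
      exact (Subgroup.mem_center_iff.1 (hVz hv) t).symm
    · intro Q hQ hQg
      have h1 := gd_of_mul hF hbrcl hbx.blk.1.1 hmul hQ hQg
      have h2 : Gd (fun t : C => e t) Q := by
        obtain ⟨g, hg1, hg2⟩ := h1
        refine ⟨g, hg1, ?_⟩
        change br V e (g : G) ≠ 0 at hg2
        rw [H66.br_of_mem (by rw [← hC]; exact g.2)] at hg2
        exact hg2
      have hcard : Nat.card (Q.map C.subtype) = Nat.card Q :=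
        (Nat.card_congr (Q.equivMapOfInjective C.subtype C.subtype_injective).toEquiv).symm
      have h3 := hL.tp.mx _ (hQ.map C.subtype) (gd_map h2)
      rw [hcard] at h3
      rw [hVcard]
      exact h3
  subst hC
  obtain ⟨q, hq0, hq⟩ := lmb_cen rg1 cens psg ℓ M hM _ _ hbx.blk _ hT hVz
  refine ⟨q, hq0, ?_⟩
  intro κ hκ a ha hag
  have h1 := hq κ hκ (fun t => a t) (by
    rw [← mulF_res _ γ ha, hag])
  rw [← h1]
  exact (finsum_comp_equiv (Subgroup.subgroupOfEquivOfLe hVC).toEquiv
    (f := fun v : V => a v)).symm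

end Pool.Agent.PFC.H12
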