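import Pool.Agent.PFC.StmtsB6

set_option autoImplicit false

open scoped BigOperators

namespace Pool.Agent.PFC.H12

/-- a finite commutative `ℓ`-group acting on a stable nonzero subspace in characteristic `ℓ` fixes a
nonzero vector -/
theorem fixv (ℓ : ℕ) [Fact ℓ.Prime] (F W L : Type) [Field F] [CharP F ℓ] [CommGroup W]
    [Finite W] [AddCommGroup L] [Module F L] (ρ : W →* (L →ₗ[F] L)) (hW : IsPGroup ℓ W)
    (N : Submodule F L) (hN : ∀ w, ∀ x ∈ N, ρ w x ∈ N) (h0 : N ≠ ⊥) :
    ∃ x ∈ N, x ≠ 0 ∧ ∀ w, ρ w x = x := by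
  classical
  haveI : Fintype W := Fintype.ofFinite W
  obtain ⟨x0, hx0, hx0'⟩ := (Submodule.ne_bot_iff N).1 h0
  haveI : Nontrivial L := ⟨⟨x0, 0, hx0'⟩⟩
  haveI : CharP (Module.End F L) ℓ :=
    charP_of_injective_algebraMap (FaithfulSMul.algebraMap_injective F (Module.End F L)) ℓ
  have key : ∀ S : Finset W, ∃ x ∈ N, x ≠ 0 ∧ ∀ w ∈ S, ρ w x = x := by
    intro S
    induction S using Finset.induction_on with
    | empty => exact ⟨x0, hx0, hx0', by simp⟩
    | insert w S hw ih =>
      obtain ⟨x, hx, hx', hS⟩ := ih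
      obtain ⟨a, ha⟩ := hW w
      let T : Module.End F L := (ρ w : Module.End F L) - 1
      have hT : T ^ (ℓ ^ a) = 0 := by
        have h1 : T ^ (ℓ ^ a) = (ρ w : Module.End F L) ^ (ℓ ^ a) - 1 ^ (ℓ ^ a) :=
          sub_pow_char_pow_of_commute ℓ a (Commute.one_right _)
        rw [h1, one_pow]
        have h2 : (ρ w : Module.End F L) ^ (ℓ ^ a) = 1 := by
          have := map_pow ρ w (ℓ ^ a)
          rw [ha, map_one] at this
          exact this.symm
        rw [h2, sub_self]
      have hex : ∃ k, (T ^ k) x = 0 := ⟨ℓ ^ a, by rw [hT]; rfl⟩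
      have hk := Nat.find_spec hex
      have hk0 : Nat.find hex ≠ 0 := by
        intro h
        rw [h] at hk
        exact hx' (by simpa using hk)
      obtain ⟨k, hk1⟩ := Nat.exists_eq_succ_of_ne_zero hk0
      have hne : (T ^ k) x ≠ 0 := Nat.find_min hex (by omega)
      have hTN : ∀ j, (T ^ j) x ∈ N ∧ ∀ v ∈ S, ρ v ((T ^ j) x) = (T ^ j) x := by
        intro j
        induction j with
        | zero => exact ⟨by simpa using hx, by simpa using hS⟩
        | succ j ihj =>
          have e : (T ^ (j + 1)) x = ρ w ((T ^ j) x) - (T ^ j) x := by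
            rw [pow_succ']
            rfl
          refine ⟨?_, ?_⟩
          · rw [e]; exact N.sub_mem (hN w _ ihj.1) ihj.1
          · intro v hv
            rw [e, map_sub, ihj.2 v hv]
            have : ρ v (ρ w ((T ^ j) x)) = ρ w (ρ v ((T ^ j) x)) := by
              have h3 : ρ v * ρ w = ρ w * ρ v := by rw [← map_mul, ← map_mul, mul_comm]
              exact congrArg (fun f : L →ₗ[F] L => f ((T ^ j) x)) h3
            rw [this, ihj.2 v hv]
      refine ⟨(T ^ k) x, (hTN k).1, hne, ?_⟩
      intro v hv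
      rcases Finset.mem_insert.1 hv with rfl | hv
      · have e : (T ^ (k + 1)) x = ρ v ((T ^ k) x) - (T ^ k) x := by
          rw [pow_succ']
          rfl
        have : (T ^ (k + 1)) x = 0 := by rw [← Nat.succ_eq_add_one, ← hk1]; exact hk
        rw [e] at this
        exact sub_eq_zero.1 this
      · exact (hTN k).2 v hv
  obtain ⟨x, h1, h2, h3⟩ := key Finset.univ
  exact ⟨x, h1, h2, fun w => h3 w (Finset.mem_univ w)⟩

theorem nka : NkaStmt := by
  intro ℓ _ F W L _ _ _ _ _ _ _ ρ hW
  refine ⟨?_, fun N hN h0 => fixv ℓ F W L ρ hW N hN h0⟩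
  intro N hN hx
  by_contra htop
  let ρ' : W →* (Module.Dual F L →ₗ[F] Module.Dual F L) :=
    { toFun := fun w => (ρ w).dualMap
      map_one' := by ext f x; simp
      map_mul' := fun v w => by
        ext f x
        have : ρ v * ρ w = ρ w * ρ v := by rw [← map_mul, ← map_mul, mul_comm]
        rw [map_mul, this]
        rfl }
  have hD : (N.dualAnnihilator : Submodule F (Module.Dual F L)) ≠ ⊥ := by
    intro h
    apply htop
    have := Subspace.dualAnnihilator_inj (W := N) (W' := (⊤ : Submodule F L))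
    exact this.1 (by rw [h, Submodule.dualAnnihilator_top])
  obtain ⟨f, hf, hf0, hfix⟩ := fixv ℓ F W (Module.Dual F L) ρ' hW N.dualAnnihilator
    (by
      intro w f hf
      rw [Submodule.mem_dualAnnihilator] at hf ⊢
      intro x hx
      exact hf _ (hN w x hx)) hD
  apply hf0
  ext x
  obtain ⟨n, hn, y, hxy⟩ := hx x
  haveI : Fintype W := Fintype.ofFinite W
  rw [hxy, map_add, finsum_eq_sum_of_fintype, map_sum]
  have h1 : f n = 0 := (Submodule.mem_dualAnnihilator f).1 hf n hn
  have h2 : ∀ w, f (ρ w (y w) - y w) = 0 := by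
    intro w
    rw [map_sub]
    have := LinearMap.congr_fun (hfix w) (y w)
    change f (ρ w (y w)) = f (y w) at this
    rw [this, sub_self]
  rw [h1, Finset.sum_congr rfl (fun w _ => h2 w)]
  simp

end Pool.Agent.PFC.H12
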